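import Pool.Agent.H95.FH.Defs

/-!
# Crew FH, part RED
-/

open MvPolynomial

namespace H61.FH
open H95.FG H95.FH

/-- a polynomial divisible by a form of `Y`-degree 2 cannot have `Y`-degree 1 -/
lemma divDeg (A F : Q3) (hA : ∀ (c : ℂ) z Y, AA A z (c • Y) = c ^ 2 * AA A z Y)
    (hF : ∀ (c : ℂ) z Y, AA F z (c • Y) = c * AA F z Y) (h : A ∣ F) : F = 0 := by
  obtain ⟨D, rfl⟩ := h
  apply MvPolynomial.funext
  intro x
  obtain ⟨z, Y, rfl⟩ : ∃ z Y : Fin 3 → ℂ, x = Sum.elim z Y :=
    ⟨x ∘ Sum.inl, x ∘ Sum.inr, (Sum.elim_comp_inl_inr x).symm⟩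
  have hc : Continuous fun t : ℂ => AA D z (t • Y) := by
    unfold AA
    refine (MvPolynomial.continuous_eval D).comp ?_
    refine continuous_pi fun i => ?_
    rcases i with i | i
    · exact continuous_const
    · exact (continuous_id.mul continuous_const : Continuous fun t : ℂ => t * Y i)
  have h1 : (fun _ : ℂ => AA (A * D) z Y) = fun t : ℂ => t * AA A z Y * AA D z (t • Y) := by
    refine Continuous.ext_on (dense_compl_singleton (0 : ℂ)) continuous_const
      ((continuous_id.mul continuous_const).mul hc) ?_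
    intro t ht
    have ht0 : t ≠ 0 := ht
    have h2 := hF t z Y
    have h3 : AA (A * D) z (t • Y) = AA A z (t • Y) * AA D z (t • Y) := by
      simp [AA]
    rw [h3, hA] at h2
    have h4 : t * (t * AA A z Y * AA D z (t • Y)) = t * AA (A * D) z Y := by
      rw [← h2]; ring
    exact (mul_left_cancel₀ ht0 h4).symm
  have h5 := congrFun h1 0
  simp only [zero_mul] at h5
  have h6 : eval (Sum.elim z Y) (A * D) = 0 := h5
  rw [h6, map_zero]

theorem t_RED (hBAS : S_BAS) (hQF : S_QF) (hADJ : S_ADJ) : S_RED := by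
  intro m p A hctx hdet ⟨c, σ, hσ, hσe⟩
  obtain ⟨-, -, -, -, hAY, -, -, -⟩ := hBAS m 2 p A hctx
  obtain ⟨hsym, hQ, q, -, hq⟩ := hQF m p A hctx
  by_contra hcon
  push Not at hcon
  -- `A ≠ 0`
  have hA0 : A ≠ 0 := by
    rintro rfl
    apply hσ
    apply MvPolynomial.funext
    intro z
    have h1 : QQ (0 : Q3) z = 0 := by
      ext k l
      simp [QQ, AA]
    have h2 := hσe z
    rw [h1, Matrix.adjugate_zero] at h2
    simp only [Matrix.zero_apply, mul_zero, zero_mul, Finset.sum_const_zero, neg_zero] at h2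
    rw [map_zero]
    exact pow_eq_zero_iff (two_ne_zero) |>.1 h2
  have hAu : ¬ IsUnit A := by
    intro hu
    have h1 : IsUnit (eval (Sum.elim (0 : Fin 3 → ℂ) (0 : Fin 3 → ℂ)) A) := hu.map _
    have h2 : AA A 0 ((0 : ℂ) • (0 : Fin 3 → ℂ)) = (0 : ℂ) ^ 2 * AA A 0 0 := hAY 0 0 0
    rw [zero_smul] at h2
    have h3 : AA A 0 0 = 0 := by rw [h2]; ring
    exact h1.ne_zero h3
  have hirr : Irreducible A := by
    refine ⟨hAu, ?_⟩
    intro a b hab
    by_contra hh
    push Not at hh
    exact hh.2 (hcon a b hab hh.1)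
  have hprime : Prime A := hirr.prime
  -- a vector `U` with `A(·, U) ≠ 0`
  obtain ⟨z0, U, hU⟩ : ∃ z0 U : Fin 3 → ℂ, AA A z0 U ≠ 0 := by
    by_contra hh
    push Not at hh
    apply hA0
    apply MvPolynomial.funext
    intro x
    have := hh (x ∘ Sum.inl) (x ∘ Sum.inr)
    rw [AA, Sum.elim_comp_inl_inr] at this
    rw [this, map_zero]
  -- the polynomials
  set qm : Matrix (Fin 3) (Fin 3) (MvPolynomial (Fin 3) ℂ) := Matrix.of q with hqm
  have hqe : ∀ z, (eval z).mapMatrix qm = QQ A z := by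
    intro z
    ext k l
    simp [hqm, hq]
  have hadj : ∀ z k l, eval z (qm.adjugate k l) = (QQ A z).adjugate k l := by
    intro z k l
    have h1 := RingHom.map_adjugate (eval z) qm
    rw [hqe] at h1
    rw [← h1]
    rfl
  set Yp : Fin 3 → Q3 := fun k => X (Sum.inr k) with hYp
  set Up : Fin 3 → Q3 := fun k => C (U k) with hUp
  set S : Q3 := rename Sum.inl σ with hS
  set B : Q3 := ∑ k, ∑ l, Yp k * rename Sum.inl (q k l) * Up l with hB
  set Cc : Q3 := ∑ k, ∑ l, C (c k) * rename Sum.inl (qm.adjugate k l) *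
    (![Yp 1 * Up 2 - Yp 2 * Up 1, Yp 2 * Up 0 - Yp 0 * Up 2, Yp 0 * Up 1 - Yp 1 * Up 0] :
      Fin 3 → Q3) l with hCc
  set qU : MvPolynomial (Fin 3) ℂ := ∑ k, ∑ l, C (U k) * q k l * C (U l) with hqU
  have eS : ∀ z Y, AA S z Y = eval z σ := by
    intro z Y
    simp [AA, hS, eval_rename]
  have eB : ∀ z Y, AA B z Y = ∑ k, ∑ l, Y k * QQ A z k l * U l := by
    intro z Y
    simp [AA, hB, hYp, hUp, eval_rename, hq]
  have eC : ∀ z Y, AA Cc z Y = ∑ k, ∑ l, c k * (QQ A z).adjugate k l * (crossProduct Y U) l := by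
    intro z Y
    simp only [AA, hCc, map_sum, map_mul, eval_C, eval_rename, Sum.elim_comp_inl, hadj]
    refine Finset.sum_congr rfl fun k _ => ?_
    refine Finset.sum_congr rfl fun l _ => ?_
    congr 1
    fin_cases l <;> simp [hYp, hUp, cross_apply]
  have eqU : ∀ z, eval z qU = AA A z U := by
    intro z
    rw [hQ]
    simp [hqU, hq]
  have hprod : (S * B - Cc) * (S * B + Cc) = S ^ 2 * A * rename Sum.inl qU := by
    apply MvPolynomial.funext
    intro x
    obtain ⟨z, Y, rfl⟩ : ∃ z Y : Fin 3 → ℂ, x = Sum.elim z Y :=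
      ⟨x ∘ Sum.inl, x ∘ Sum.inr, (Sum.elim_comp_inl_inr x).symm⟩
    have h1 := hADJ (QQ A z) (hsym z) (hdet z) Y U c
    have h2 := hσe z
    have h3 : eval (Sum.elim z Y) (rename Sum.inl qU : Q3) = AA A z U := by
      rw [eval_rename, Sum.elim_comp_inl, eqU]
    have h4 : eval (Sum.elim z Y) S = eval z σ := eS z Y
    have h5 : eval (Sum.elim z Y) B = ∑ k, ∑ l, Y k * QQ A z k l * U l := eB z Y
    have h6 : eval (Sum.elim z Y) Cc =
      ∑ k, ∑ l, c k * (QQ A z).adjugate k l * (crossProduct Y U) l := eC z Y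
    have h7 : eval (Sum.elim z Y) A = ∑ k, ∑ l, Y k * QQ A z k l * Y l := hQ z Y
    have h8 : AA A z U = ∑ k, ∑ l, U k * QQ A z k l * U l := hQ z U
    simp only [map_mul, map_sub, map_add, map_pow]
    rw [h3, h4, h5, h6, h7, h8]
    linear_combination (-1) * h1 + (-((∑ k, ∑ l, Y k * QQ A z k l * Y l) *
      (∑ k, ∑ l, U k * QQ A z k l * U l) - (∑ k, ∑ l, Y k * QQ A z k l * U l) ^ 2)) * h2
  have hlinB : ∀ (t : ℂ) z Y, AA B z (t • Y) = t * AA B z Y := by
    intro t z Y
    rw [eB, eB, Finset.mul_sum]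
    refine Finset.sum_congr rfl fun k _ => ?_
    rw [Finset.mul_sum]
    refine Finset.sum_congr rfl fun l _ => ?_
    simp only [Pi.smul_apply, smul_eq_mul]
    ring
  have hlinC : ∀ (t : ℂ) z Y, AA Cc z (t • Y) = t * AA Cc z Y := by
    intro t z Y
    rw [eC, eC, Finset.mul_sum]
    refine Finset.sum_congr rfl fun k _ => ?_
    rw [Finset.mul_sum]
    refine Finset.sum_congr rfl fun l _ => ?_
    simp only [map_smul, LinearMap.smul_apply, Pi.smul_apply, smul_eq_mul]
    ring
  have hm1 : AA (S * B - Cc) = fun z Y => AA S z Y * AA B z Y - AA Cc z Y := by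
    funext z Y
    simp [AA]
  have hm2 : AA (S * B + Cc) = fun z Y => AA S z Y * AA B z Y + AA Cc z Y := by
    funext z Y
    simp [AA]
  have hzero : (S * B - Cc) * (S * B + Cc) = 0 := by
    have hd : A ∣ (S * B - Cc) * (S * B + Cc) := by
      rw [hprod]
      exact ⟨S ^ 2 * rename Sum.inl qU, by ring⟩
    rcases hprime.dvd_or_dvd hd with h | h
    · rw [divDeg A (S * B - Cc) hAY ?_ h, zero_mul]
      intro t z Y
      rw [hm1]
      simp only [eS, hlinB, hlinC]
      ring
    · rw [divDeg A (S * B + Cc) hAY ?_ h, mul_zero]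
      intro t z Y
      rw [hm2]
      simp only [eS, hlinB, hlinC]
      ring
  rw [hzero] at hprod
  have hS0 : S ≠ 0 := by
    intro h
    apply hσ
    exact rename_injective _ Sum.inl_injective (by rw [← hS, h, map_zero])
  have hqU0 : (rename Sum.inl qU : Q3) = 0 := by
    rcases mul_eq_zero.1 hprod.symm with h | h
    · rcases mul_eq_zero.1 h with h | h
      · exact absurd (pow_eq_zero_iff (two_ne_zero) |>.1 h) hS0
      · exact absurd h hA0
    · exact h
  have hqU1 : qU = 0 := rename_injective _ Sum.inl_injective (by rw [hqU0, map_zero])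
  apply hU
  rw [← eqU, hqU1, map_zero]

end H61.FH
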